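import Pool.Agent.LSG.StmtsD

/-!
# Squad LSG, row CTK: from a countable family to a locally finite one
-/

set_option autoImplicit false

open Set Topology
open scoped BigOperators

namespace Pool.Agent.LSG.H97

variable {H : Type} [TopologicalSpace H]

/-- the truncated functions -/
noncomputable def tr (φ : ℕ → C(H, ℝ)) (m : ℕ) (h : H) : ℝ := min 1 (φ m h)

/-- the locally finite family before normalisation -/
noncomputable def lf (φ : ℕ → C(H, ℝ)) (m : ℕ) (h : H) : ℝ :=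
  max 0 (tr φ m h - m * ∑ l ∈ Finset.range m, tr φ l h)

theorem tr_cont (φ : ℕ → C(H, ℝ)) (m : ℕ) : Continuous (tr φ m) :=
  continuous_const.min (φ m).continuous

theorem lf_cont (φ : ℕ → C(H, ℝ)) (m : ℕ) : Continuous (lf φ m) := by
  apply continuous_const.max
  apply (tr_cont φ m).sub
  apply continuous_const.mul
  exact continuous_finsetSum _ (fun l _ => tr_cont φ l)

theorem tr_nonneg (φ : ℕ → C(H, ℝ)) (h0 : ∀ m h, 0 ≤ φ m h) (m : ℕ) (h : H) : 0 ≤ tr φ m h :=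
  le_min zero_le_one (h0 m h)

theorem lf_nonneg (φ : ℕ → C(H, ℝ)) (m : ℕ) (h : H) : 0 ≤ lf φ m h := le_max_left _ _

theorem sum_nonneg' (φ : ℕ → C(H, ℝ)) (h0 : ∀ m h, 0 ≤ φ m h) (m : ℕ) (h : H) :
    0 ≤ ∑ l ∈ Finset.range m, tr φ l h :=
  Finset.sum_nonneg (fun l _ => tr_nonneg φ h0 l h)

theorem lf_ne (φ : ℕ → C(H, ℝ)) (h0 : ∀ m h, 0 ≤ φ m h) (m : ℕ) (h : H)
    (hne : lf φ m h ≠ 0) : φ m h ≠ 0 := by
  intro hz
  apply hne
  unfold lf
  apply max_eq_left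
  have h1 : tr φ m h = 0 := by
    unfold tr
    rw [hz]
    exact min_eq_right zero_le_one
  rw [h1]
  have h2 := mul_nonneg (Nat.cast_nonneg (α := ℝ) m) (sum_nonneg' φ h0 m h)
  linarith

theorem lf_locallyFinite (φ : ℕ → C(H, ℝ)) (h0 : ∀ m h, 0 ≤ φ m h)
    (h1 : ∀ h, ∃ m, φ m h ≠ 0) : LocallyFinite fun m => Function.support (lf φ m) := by
  intro h
  obtain ⟨l, hl⟩ := h1 h
  have hpos : 0 < tr φ l h := by
    unfold tr
    exact lt_min zero_lt_one (lt_of_le_of_ne (h0 l h) (Ne.symm hl))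
  refine ⟨{q | tr φ l h / 2 < tr φ l q}, ?_, ?_⟩
  · apply IsOpen.mem_nhds
    · exact isOpen_lt continuous_const (tr_cont φ l)
    · show tr φ l h / 2 < tr φ l h
      linarith
  · obtain ⟨N, hN⟩ := exists_nat_gt (2 / tr φ l h)
    apply (Set.finite_le_nat (max l N)).subset
    rintro m ⟨q, hq1, hq2⟩
    by_contra hm
    have hm1 : l < m := lt_of_le_of_lt (le_max_left _ _) (not_le.mp hm)
    have hm2 : N < m := lt_of_le_of_lt (le_max_right _ _) (not_le.mp hm)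
    apply hq1
    unfold lf
    apply max_eq_left
    have h2 : tr φ l h / 2 < tr φ l q := hq2
    have h3 : tr φ l q ≤ ∑ j ∈ Finset.range m, tr φ j q :=
      Finset.single_le_sum (f := fun j => tr φ j q) (fun j _ => tr_nonneg φ h0 j q)
        (Finset.mem_range.mpr hm1)
    have h4 : tr φ m q ≤ 1 := min_le_left _ _
    have h5 : (2 : ℝ) / tr φ l h < m := lt_trans hN (by exact_mod_cast hm2)
    have h6 : 2 < (m : ℝ) * tr φ l h := by
      rwa [div_lt_iff₀ hpos] at h5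
    have hm0 : (0 : ℝ) ≤ m := Nat.cast_nonneg m
    have h7 : (m : ℝ) * (tr φ l h / 2) ≤ m * ∑ j ∈ Finset.range m, tr φ j q :=
      mul_le_mul_of_nonneg_left (le_trans h2.le h3) hm0
    linarith

theorem lf_pos (φ : ℕ → C(H, ℝ)) (h0 : ∀ m h, 0 ≤ φ m h)
    (h1 : ∀ h, ∃ m, φ m h ≠ 0) (h : H) : ∃ m, 0 < lf φ m h := by
  classical
  refine ⟨Nat.find (h1 h), ?_⟩
  have hs := Nat.find_spec (h1 h)
  have hz : ∑ l ∈ Finset.range (Nat.find (h1 h)), tr φ l h = 0 := by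
    apply Finset.sum_eq_zero
    intro l hl
    have h2 := Nat.find_min (h1 h) (Finset.mem_range.mp hl)
    rw [not_not] at h2
    unfold tr
    rw [h2]
    exact min_eq_right zero_le_one
  unfold lf
  rw [hz, mul_zero, sub_zero]
  apply lt_max_of_lt_right
  exact lt_min zero_lt_one (lt_of_le_of_ne (h0 _ h) (Ne.symm hs))

/-- the sum of the squares -/
noncomputable def ssq (φ : ℕ → C(H, ℝ)) (h : H) : ℝ := ∑ᶠ m, (lf φ m h) ^ 2

theorem supp_sq (φ : ℕ → C(H, ℝ)) (m : ℕ) :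
    (Function.support fun h => (lf φ m h) ^ 2) = Function.support (lf φ m) := by
  ext h
  simp only [Function.mem_support, ne_eq, pow_eq_zero_iff, OfNat.ofNat_ne_zero, not_false_eq_true]

theorem point_fin (φ : ℕ → C(H, ℝ)) (h0 : ∀ m h, 0 ≤ φ m h)
    (h1 : ∀ h, ∃ m, φ m h ≠ 0) (h : H) :
    (Function.support fun m => (lf φ m h) ^ 2).Finite := by
  apply ((lf_locallyFinite φ h0 h1).point_finite h).subset
  intro m hm
  rw [Function.mem_support] at hm
  rw [mem_setOf_eq, Function.mem_support]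
  intro hz
  apply hm
  rw [hz]
  norm_num

theorem ssq_cont (φ : ℕ → C(H, ℝ)) (h0 : ∀ m h, 0 ≤ φ m h)
    (h1 : ∀ h, ∃ m, φ m h ≠ 0) : Continuous (ssq φ) := by
  apply continuous_finsum
  · intro m
    exact (lf_cont φ m).pow 2
  · have h2 := lf_locallyFinite φ h0 h1
    intro h
    obtain ⟨U, hU, hf⟩ := h2 h
    refine ⟨U, hU, ?_⟩
    apply hf.subset
    rintro m ⟨q, hq1, hq2⟩
    refine ⟨q, ?_, hq2⟩
    show q ∈ Function.support (lf φ m)
    rw [← supp_sq φ m]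
    exact hq1

theorem ssq_pos (φ : ℕ → C(H, ℝ)) (h0 : ∀ m h, 0 ≤ φ m h)
    (h1 : ∀ h, ∃ m, φ m h ≠ 0) (h : H) : 0 < ssq φ h := by
  obtain ⟨m, hm⟩ := lf_pos φ h0 h1 h
  have h2 := point_fin φ h0 h1 h
  unfold ssq
  rw [finsum_eq_sum _ h2]
  have h3 : m ∈ h2.toFinset := by
    rw [Set.Finite.mem_toFinset, Function.mem_support]
    exact (pow_pos hm 2).ne'
  exact lt_of_lt_of_le (pow_pos hm 2)
    (Finset.single_le_sum (f := fun j => (lf φ j h) ^ 2) (fun j _ => sq_nonneg _) h3)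

theorem ctk : CtkStmt := by
  intro H _ φ h0 h1
  have hsc : Continuous fun h => Real.sqrt (ssq φ h) := (ssq_cont φ h0 h1).sqrt
  have hsne : ∀ h, Real.sqrt (ssq φ h) ≠ 0 := fun h => (Real.sqrt_pos.mpr (ssq_pos φ h0 h1 h)).ne'
  refine ⟨fun m => ⟨fun h => lf φ m h / Real.sqrt (ssq φ h), (lf_cont φ m).div hsc hsne⟩,
    ?_, ?_, ?_⟩
  · intro m h hne
    apply lf_ne φ h0 m h
    intro hz
    apply hne
    show lf φ m h / Real.sqrt (ssq φ h) = 0
    rw [hz, zero_div]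
  · have h2 := lf_locallyFinite φ h0 h1
    intro h
    obtain ⟨U, hU, hf⟩ := h2 h
    refine ⟨U, hU, ?_⟩
    apply hf.subset
    rintro m ⟨q, hq1, hq2⟩
    refine ⟨q, ?_, hq2⟩
    intro hz
    apply hq1
    show lf φ m q / Real.sqrt (ssq φ q) = 0
    rw [hz, zero_div]
  · intro h
    have h3 : ∀ m, (lf φ m h / Real.sqrt (ssq φ h)) ^ 2 = (lf φ m h) ^ 2 * (ssq φ h)⁻¹ := by
      intro m
      rw [div_pow, Real.sq_sqrt (ssq_pos φ h0 h1 h).le, div_eq_mul_inv]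
    show ∑ᶠ m, (lf φ m h / Real.sqrt (ssq φ h)) ^ 2 = 1
    rw [finsum_congr h3, ← finsum_mul]
    exact mul_inv_cancel₀ (ssq_pos φ h0 h1 h).ne'

end Pool.Agent.LSG.H97
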